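import Pool.Agent.helper58.FI4E.Spec

/-!
# Row `fi4e:TGP`

Port of `Pool/Agent/helper41/FI3/FTG3.lean` and `Pool/Agent/helper53/DI/A1.lean`.
-/

set_option autoImplicit false

namespace Pool.Agent.FI4E

open Pool.Agent.helper58.DC Pool.Agent.DI Pool.Agent.GR Pool.Agent.OB Pool.Agent.DR Pool.Agent.FI Pool.Agent.FI3 Pool.Agent.FI4 Pool.Agent.FI4I

open Classical in
theorem TGP_A1 {α : Type} [Finite α] (S : Set (Finset α)) (t : Finset α → α) (F : Finset α → ℂ)
    (h : ∀ C ∈ S, ∀ D, (D = insert (t C) C ∨ D = C.erase (t C)) → D ∈ S ∧ t D = t C ∧ F D = F C) :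
    ∑ᶠ C ∈ S, (-1 : ℂ) ^ (C.card + 1) * F C = 0 := by
  have hfin : S.Finite := Set.toFinite S
  rw [finsum_mem_eq_finite_toFinset_sum _ hfin]
  have hmem : ∀ C, C ∈ hfin.toFinset ↔ C ∈ S := fun C => hfin.mem_toFinset
  have hg : ∀ C ∈ S, ((if t C ∈ C then C.erase (t C) else insert (t C) C) ∈ S ∧
      t (if t C ∈ C then C.erase (t C) else insert (t C) C) = t C ∧
      F (if t C ∈ C then C.erase (t C) else insert (t C) C) = F C) := by
    intro C hC
    by_cases htc : t C ∈ C
    · simp only [htc, if_true]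
      exact h C hC _ (Or.inr rfl)
    · simp only [htc, if_false]
      exact h C hC _ (Or.inl rfl)
  refine Finset.sum_involution
    (fun C _ => if t C ∈ C then C.erase (t C) else insert (t C) C) ?_ ?_ ?_ ?_
  · intro C hC
    obtain ⟨-, -, h3⟩ := hg C ((hmem C).1 hC)
    rw [h3]
    by_cases htc : t C ∈ C
    · simp only [htc, if_true]
      have h4 : (C.erase (t C)).card + 1 = C.card := Finset.card_erase_add_one htc
      rw [h4, pow_succ]
      ring
    · simp only [htc, if_false]
      rw [Finset.card_insert_of_notMem htc, pow_succ (-1 : ℂ) (C.card + 1)]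
      ring
  · intro C hC _ heq
    by_cases htc : t C ∈ C
    · simp only [htc, if_true] at heq
      have h4 : t C ∉ C.erase (t C) := Finset.notMem_erase _ _
      rw [heq] at h4
      exact h4 htc
    · simp only [htc, if_false] at heq
      have h4 : t C ∈ insert (t C) C := Finset.mem_insert_self _ _
      rw [heq] at h4
      exact htc h4
  · intro C hC
    exact (hmem _).2 (hg C ((hmem C).1 hC)).1
  · intro C hC
    obtain ⟨-, h2, -⟩ := hg C ((hmem C).1 hC)
    rw [h2]
    by_cases htc : t C ∈ C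
    · simp only [htc, if_true, Finset.notMem_erase, if_false]
      exact Finset.insert_erase htc
    · simp only [htc, if_false, Finset.mem_insert_self, if_true]
      exact Finset.erase_insert htc

section

variable {G : Type} [Group G]

theorem TGP_nz {D Q S : Subgroup G} (hD : ∀ a ∈ D, ∀ b ∈ D, a * b = b * a) (hQ : Q ≤ D) (hS : S ≤ D) :
    S ≤ nz Q := by
  intro x hx
  rw [Subgroup.mem_normalizer_iff]
  have h1 : ∀ y ∈ D, x * y * x⁻¹ = y := by
    intro y hy
    rw [hD x (hS hx) y hy, mul_inv_cancel_right]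
  intro y
  constructor
  · intro hy
    rw [h1 y (hQ hy)]
    exact hy
  · intro hy
    have h2 := h1 (x * y * x⁻¹) (hQ hy)
    have h3 : x * y * x⁻¹ = y := by
      have h4 : x * (x * y * x⁻¹) * x⁻¹ = x * y * x⁻¹ := h2
      have h5 : x * (x * y * x⁻¹) = x * y := mul_right_cancel h4
      exact mul_left_cancel h5
    rw [h3] at hy
    exact hy

open Classical in
theorem TGP_ins (D : Subgroup G) (C : Finset (Subgroup G)) :
    nrm (insert D C) ⊓ nz D = nrm C ⊓ nz D := by
  ext x
  simp only [Subgroup.mem_inf]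
  constructor
  · rintro ⟨h2, h1⟩
    refine ⟨?_, h1⟩
    unfold nrm at h2 ⊢
    simp only [Subgroup.mem_iInf] at h2 ⊢
    intro P hP
    exact h2 P (Finset.mem_insert_of_mem hP)
  · rintro ⟨h2, h1⟩
    refine ⟨?_, h1⟩
    unfold nrm at h2 ⊢
    simp only [Subgroup.mem_iInf] at h2 ⊢
    intro P hP
    rcases Finset.mem_insert.1 hP with rfl | hP
    · exact h1
    · exact h2 P hP

open Classical in
theorem TGP_pch {p : ℕ} {D Z : Subgroup G} (hp : IsPGroup p D) (hZ : Z ≤ D)
    {C : Finset (Subgroup G)} (h : PCh p D Z C) : PCh p D Z (insert D C) where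
  chain := by
    rw [Finset.coe_insert]
    exact h.chain.insert fun Q hQ _ => Or.inr (h.le Q hQ)
  mem := Finset.mem_insert_of_mem h.mem
  bot := by
    intro Q hQ
    rcases Finset.mem_insert.1 hQ with rfl | hQ
    · exact hZ
    · exact h.bot Q hQ
  le := by
    intro Q hQ
    rcases Finset.mem_insert.1 hQ with rfl | hQ
    · exact le_rfl
    · exact h.le Q hQ
  pg := by
    intro Q hQ
    rcases Finset.mem_insert.1 hQ with rfl | hQ
    · exact hp
    · exact h.pg Q hQ

open Classical in
theorem TGP_pce {p : ℕ} {D Z : Subgroup G} (hD : D ≠ Z) {C : Finset (Subgroup G)}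
    (h : PCh p D Z C) : PCh p D Z (C.erase D) where
  chain := h.chain.mono (Finset.coe_subset.2 (Finset.erase_subset _ _))
  mem := Finset.mem_erase.2 ⟨hD.symm, h.mem⟩
  bot := fun Q hQ => h.bot Q (Finset.mem_of_mem_erase hQ)
  le := fun Q hQ => h.le Q (Finset.mem_of_mem_erase hQ)
  pg := fun Q hQ => h.pg Q (Finset.mem_of_mem_erase hQ)

theorem TGP_nch {p : ℕ} {D R : Subgroup G} (hD : ∀ a ∈ D, ∀ b ∈ D, a * b = b * a) (C : Finset (Subgroup G)) :
    (NCh p ⊤ R C ∧ ∀ Q ∈ C, Q ≤ D) ↔ PCh p D R C := by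
  constructor
  · rintro ⟨h, h'⟩
    exact ⟨h.ch.chain, h.ch.mem, h.ch.bot, h', h.ch.pg⟩
  · intro h
    exact ⟨⟨⟨h.chain, h.mem, h.bot, fun Q _ => le_top, h.pg⟩,
      fun Q hQ S hS _ => TGP_nz hD (h.le Q hQ) (h.le S hS)⟩, h.le⟩

end

open Classical in
theorem TGP : TGP_stmt := by
  intro G _ _ p _ D R β hp hcomm hZD hR hβD hβR f
  have hD : D ≠ R := hZD.ne'
  have hfin : ∀ S : Set (Finset (Subgroup G)), S.Finite := fun S => Set.toFinite S
  have hpair : PCh p D R ({R, D} : Finset (Subgroup G)) := by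
    refine ⟨?_, ?_, ?_, ?_, ?_⟩
    · intro P hP Q hQ _
      simp only [Finset.coe_insert, Finset.coe_singleton, Set.mem_insert_iff, Set.mem_singleton_iff] at hP hQ
      rcases hP with rfl | rfl
      · rcases hQ with rfl | rfl
        · exact Or.inl le_rfl
        · exact Or.inl hZD.le
      · rcases hQ with rfl | rfl
        · exact Or.inr hZD.le
        · exact Or.inl le_rfl
    · simp
    · intro Q hQ
      simp only [Finset.mem_insert, Finset.mem_singleton] at hQ
      rcases hQ with rfl | rfl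
      · exact le_rfl
      · exact hZD.le
    · intro Q hQ
      simp only [Finset.mem_insert, Finset.mem_singleton] at hQ
      rcases hQ with rfl | rfl
      · exact hZD.le
      · exact le_rfl
    · intro Q hQ
      simp only [Finset.mem_insert, Finset.mem_singleton] at hQ
      rcases hQ with rfl | rfl
      · exact hp.to_le hZD.le
      · exact hp
  have hfx : FxC β ({R, D} : Finset (Subgroup G)) := by
    intro Q hQ
    simp only [Finset.mem_insert, Finset.mem_singleton] at hQ
    rcases hQ with rfl | rfl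
    · exact hβR
    · exact hβD
  have hne : ({R, D} : Finset (Subgroup G)) ≠ {R} := by
    intro h
    have h1 : D ∈ ({R, D} : Finset (Subgroup G)) := by simp
    rw [h, Finset.mem_singleton] at h1
    exact hD h1
  have hset : {C : Finset (Subgroup G) | (NCh p ⊤ R C ∧ C ≠ {R}) ∧ FxC β C ∧ ∀ Q ∈ C, Q ≤ D} =
      insert ({R, D} : Finset (Subgroup G))
        {C : Finset (Subgroup G) | (PCh p D R C ∧ FxC β C) ∧ C ≠ {R} ∧ C ≠ {R, D}} := by
    ext C
    simp only [Set.mem_insert_iff, Set.mem_ofPred_eq]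
    constructor
    · rintro ⟨⟨h1, h2⟩, h3, h4⟩
      by_cases h5 : C = {R, D}
      · exact Or.inl h5
      · exact Or.inr ⟨⟨(TGP_nch hcomm C).1 ⟨h1, h4⟩, h3⟩, h2, h5⟩
    · rintro (rfl | ⟨⟨h1, h3⟩, h2, -⟩)
      · have h4 := (TGP_nch hcomm _).2 hpair
        exact ⟨⟨h4.1, hne⟩, hfx, h4.2⟩
      · have h4 := (TGP_nch hcomm _).2 h1
        exact ⟨⟨h4.1, h2⟩, h3, h4.2⟩
  have hnot : ({R, D} : Finset (Subgroup G)) ∉
      {C : Finset (Subgroup G) | (PCh p D R C ∧ FxC β C) ∧ C ≠ {R} ∧ C ≠ {R, D}} := fun h => h.2.2 rfl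
  rw [hset, finsum_mem_insert _ hnot (hfin _)]
  have key : ∑ᶠ C ∈ {C : Finset (Subgroup G) | (PCh p D R C ∧ FxC β C) ∧ C ≠ {R} ∧ C ≠ {R, D}},
      (-1 : ℂ) ^ (C.card + 1) * (fun C => f (nrm C ⊓ nz D)) C = 0 := by
    apply TGP_A1 _ (fun _ => D) (fun C => f (nrm C ⊓ nz D))
    rintro C ⟨⟨h1, h1'⟩, h2, h3⟩ C' (rfl | rfl)
    · refine ⟨⟨⟨TGP_pch hp hZD.le h1, ?_⟩, ?_, ?_⟩, rfl, ?_⟩
      · intro Q hQ
        rcases Finset.mem_insert.1 hQ with rfl | hQ
        · exact hβD
        · exact h1' Q hQ
      · intro h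
        have h4 : D ∈ insert D C := Finset.mem_insert_self _ _
        rw [h, Finset.mem_singleton] at h4
        exact hD h4
      · intro h
        by_cases h4 : D ∈ C
        · rw [Finset.insert_eq_of_mem h4] at h
          exact h3 h
        · apply h2
          ext Q
          rw [Finset.mem_singleton]
          constructor
          · intro h5
            have h6 : Q ∈ insert D C := Finset.mem_insert_of_mem h5
            rw [h, Finset.mem_insert, Finset.mem_singleton] at h6
            rcases h6 with h6 | h6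
            · exact h6
            · rw [h6] at h5
              exact absurd h5 h4
          · rintro rfl
            exact h1.mem
      · show f (nrm (insert D C) ⊓ nz D) = f (nrm C ⊓ nz D)
        rw [TGP_ins D C]
    · refine ⟨⟨⟨TGP_pce hD h1, fun Q hQ => h1' Q (Finset.mem_of_mem_erase hQ)⟩, ?_, ?_⟩, rfl, ?_⟩
      · intro h
        by_cases h4 : D ∈ C
        · apply h3
          rw [← Finset.insert_erase h4, h]
          ext Q
          simp only [Finset.mem_insert, Finset.mem_singleton]
          tauto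
        · rw [Finset.erase_eq_of_notMem h4] at h
          exact h2 h
      · intro h
        have h4 : D ∉ C.erase D := Finset.notMem_erase _ _
        rw [h] at h4
        exact h4 (by simp)
      · show f (nrm (C.erase D) ⊓ nz D) = f (nrm C ⊓ nz D)
        by_cases h4 : D ∈ C
        · have h5 := TGP_ins D (C.erase D)
          rw [Finset.insert_erase h4] at h5
          rw [h5]
        · rw [Finset.erase_eq_of_notMem h4]
  rw [show (∑ᶠ C ∈ {C : Finset (Subgroup G) | (PCh p D R C ∧ FxC β C) ∧ C ≠ {R} ∧ C ≠ {R, D}},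
      (-1 : ℂ) ^ (C.card + 1) * f (nrm C ⊓ nz D)) = 0 from key, add_zero]
  have hcard : ({R, D} : Finset (Subgroup G)).card = 2 := Finset.card_pair hD.symm
  have hT2 : nrm ({R, D} : Finset (Subgroup G)) ⊓ nz D = nz D := by
    apply inf_eq_right.2
    unfold nrm
    refine le_iInf₂ fun P hP => ?_
    rw [Finset.mem_insert, Finset.mem_singleton] at hP
    rcases hP with rfl | rfl
    · exact le_top.trans (le_of_eq hR.symm)
    · exact le_rfl
  rw [hcard, hT2]
  ring

end Pool.Agent.FI4E
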